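import Pool.Agent.Y953.ECT.Stm

set_option autoImplicit false

/-!
# The relations between `x / y` and `1 / y` on a Weierstrass curve (job ECET-KER)
-/

namespace Pool.Agent.Y79.ECT

open Polynomial

section

variable {O K : Type} [CommRing O] [IsDomain O] [Field K] [Algebra O K]

/-- The coordinate `1, y` are linearly independent over `O[x]`. -/
theorem lin {a₁ a₂ a₃ a₄ a₆ : O} {x y : K} (hx : Transcendental O x)
    (hw : y ^ 2 + algebraMap O K a₁ * x * y + algebraMap O K a₃ * y =
      x ^ 3 + algebraMap O K a₂ * x ^ 2 + algebraMap O K a₄ * x + algebraMap O K a₆)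
    {r s : O[X]} (h : aeval x r + aeval x s * y = 0) : r = 0 ∧ s = 0 := by
  set W : WeierstrassCurve.Affine O := ⟨a₁, a₂, a₃, a₄, a₆⟩ with hW
  have h1 : aeval x (r ^ 2 - r * s * (C a₁ * X + C a₃) -
      s ^ 2 * (X ^ 3 + C a₂ * X ^ 2 + C a₄ * X + C a₆)) = 0 := by
    simp only [map_sub, map_mul, map_pow, map_add, aeval_X, aeval_C]
    linear_combination (aeval x r - aeval x s * (y + algebraMap O K a₁ * x +
      algebraMap O K a₃)) * h + (aeval x s) ^ 2 * hw
  have h2 := (transcendental_iff.1 hx) _ h1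
  have h3 := WeierstrassCurve.Affine.CoordinateRing.degree_norm_smul_basis (W' := W) r s
  rw [WeierstrassCurve.Affine.CoordinateRing.norm_smul_basis] at h3
  simp only [hW] at h3
  rw [h2, degree_zero] at h3
  have h4 := le_of_eq h3.symm
  have h5 := le_trans (le_max_left _ _) h4
  have h6 := le_trans (le_max_right _ _) h4
  constructor
  · by_contra hr
    rw [degree_eq_natDegree hr] at h5
    rw [le_bot_iff] at h5
    rw [two_nsmul] at h5
    simp at h5
  · by_contra hr
    rw [degree_eq_natDegree hr] at h6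
    rw [le_bot_iff] at h6
    rw [two_nsmul] at h6
    simp at h6

/-- Evaluation of a polynomial in two variables. -/
noncomputable def ev (u v : K) : O[X][X] →+* K :=
  eval₂RingHom (aeval u : O[X] →ₐ[O] K).toRingHom v

omit [IsDomain O] in
theorem ev_C (u v : K) (p : O[X]) : ev u v (C p) = aeval u p := by
  simp [ev]

omit [IsDomain O] in
theorem ev_X (u v : K) : ev u v (X : O[X][X]) = v := by
  simp [ev]

omit [IsDomain O] in
theorem ev_swap (u v : K) (P : O[X][X]) : ev u v (Bivariate.swap P) = ev v u P := by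
  have : ((ev u v).comp (Bivariate.swap (R := O) : O[X][X] ≃ₐ[O] O[X][X]).toRingEquiv.toRingHom) =
      ev v u := by
    apply Polynomial.ringHom_ext'
    · apply Polynomial.ringHom_ext'
      · ext a
        simp [ev, Bivariate.swap_apply]
      · simp [ev, Bivariate.swap_apply]
    · simp [ev, Bivariate.swap_apply]
  exact congrArg (fun f => f P) this

/-- The kernel of the evaluation at the affine generic point. -/
theorem dvd_of_ev {a₁ a₂ a₃ a₄ a₆ : O} {x y : K} (hx : Transcendental O x)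
    (hw : y ^ 2 + algebraMap O K a₁ * x * y + algebraMap O K a₃ * y =
      x ^ 3 + algebraMap O K a₂ * x ^ 2 + algebraMap O K a₄ * x + algebraMap O K a₆)
    {P : O[X][X]} (h : ev x y P = 0) :
    (X ^ 2 + C (C a₁ * X + C a₃) * X - C (X ^ 3 + C a₂ * X ^ 2 + C a₄ * X + C a₆) : O[X][X]) ∣ P := by
  set W : WeierstrassCurve.Affine O := ⟨a₁, a₂, a₃, a₄, a₆⟩ with hW
  set w : O[X][X] := X ^ 2 + C (C a₁ * X + C a₃) * X -
    C (X ^ 3 + C a₂ * X ^ 2 + C a₄ * X + C a₆) with hwd
  have e : w = W.polynomial := rfl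
  have hm : w.Monic := by rw [e]; exact WeierstrassCurve.Affine.monic_polynomial
  have hd : w.degree = 2 := by rw [e]; exact WeierstrassCurve.Affine.degree_polynomial
  rw [← modByMonic_eq_zero_iff_dvd hm]
  have h1 : (P %ₘ w).natDegree ≤ 1 := by
    have := degree_modByMonic_lt P hm
    rw [hd] at this
    rcases eq_or_ne (P %ₘ w) 0 with h0 | h0
    · rw [h0]; simp
    · exact Nat.lt_succ_iff.1 ((natDegree_lt_iff_degree_lt h0).2 this)
  obtain ⟨s, r, hsr⟩ := exists_eq_X_add_C_of_natDegree_le_one h1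
  have hz : ev x y w = 0 := by
    rw [hwd]
    simp only [map_sub, map_mul, map_pow, map_add, ev_C, ev_X, aeval_X, aeval_C]
    linear_combination hw
  have h3 : ev x y (P %ₘ w) = 0 := by
    have := congrArg (ev x y) (modByMonic_add_div P w)
    rw [map_add, map_mul, hz, zero_mul, add_zero, h] at this
    exact this
  rw [hsr] at h3
  simp only [map_mul, map_add, ev_C, ev_X] at h3
  obtain ⟨h4, h5⟩ := lin hx hw (r := r) (s := s) (by linear_combination h3)
  rw [hsr, h4, h5]
  simp

/-- `1, x, x ^ 2` are linearly independent over `O[y]`. -/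
theorem lin3 {a₁ a₂ a₃ a₄ a₆ : O} {x y : K} (hx : Transcendental O x)
    (hw : y ^ 2 + algebraMap O K a₁ * x * y + algebraMap O K a₃ * y =
      x ^ 3 + algebraMap O K a₂ * x ^ 2 + algebraMap O K a₄ * x + algebraMap O K a₆)
    {u₀ u₁ u₂ : O[X]} (h : aeval y u₀ + aeval y u₁ * x + aeval y u₂ * x ^ 2 = 0) :
    u₀ = 0 ∧ u₁ = 0 ∧ u₂ = 0 := by
  set Q : O[X][X] := C u₀ + C u₁ * X + C u₂ * X ^ 2 with hQ
  have h1 : ev x y (Bivariate.swap Q) = 0 := by
    rw [ev_swap, hQ]
    simp only [map_mul, map_pow, map_add, ev_C, ev_X]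
    exact h
  obtain ⟨T, hT⟩ := dvd_of_ev hx hw h1
  have h2 := congrArg (Bivariate.swap (R := O)) hT
  rw [Bivariate.swap_swap_apply, map_mul] at h2
  set g : O[X][X] := X ^ 3 + C (C a₂) * X ^ 2 + C (C a₄ - C a₁ * X) * X +
    C (C a₆ - X ^ 2 - C a₃ * X) with hg
  have h3 : Bivariate.swap (X ^ 2 + C (C a₁ * X + C a₃) * X -
      C (X ^ 3 + C a₂ * X ^ 2 + C a₄ * X + C a₆) : O[X][X]) = -g := by
    rw [hg]
    simp only [map_sub, map_mul, map_pow, map_add, Bivariate.swap_Y, Bivariate.swap_X,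
      Bivariate.swap_C_C]
    ring
  rw [h3] at h2
  have hgd : g.natDegree = 3 := by
    rw [hg]; compute_degree!
  have hT0 : Bivariate.swap T = 0 := by
    by_contra h0
    have h4 := congrArg natDegree h2
    have hg0 : -g ≠ 0 := by
      intro h5
      have := congrArg natDegree h5
      rw [natDegree_neg, hgd] at this
      simp at this
    rw [natDegree_mul hg0 h0, natDegree_neg, hgd] at h4
    have h5 : Q.natDegree ≤ 2 := by rw [hQ]; compute_degree
    omega
  rw [hT0, mul_zero] at h2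
  refine ⟨?_, ?_, ?_⟩
  · have := congrArg (fun p : O[X][X] => p.coeff 0) h2
    simpa [hQ] using this
  · have := congrArg (fun p : O[X][X] => p.coeff 1) h2
    simpa [hQ, coeff_X, coeff_C] using this
  · have := congrArg (fun p : O[X][X] => p.coeff 2) h2
    simpa [hQ, coeff_X, coeff_C] using this

/-- `1, x / y, x ^ 2 / y ^ 2` are linearly independent over `O[1 / y]`. -/
theorem lin3' {a₁ a₂ a₃ a₄ a₆ : O} {x y : K} (hx : Transcendental O x) (hy : y ≠ 0)
    (hw : y ^ 2 + algebraMap O K a₁ * x * y + algebraMap O K a₃ * y =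
      x ^ 3 + algebraMap O K a₂ * x ^ 2 + algebraMap O K a₄ * x + algebraMap O K a₆)
    {c₀ c₁ c₂ : O[X]}
    (h : aeval y⁻¹ c₀ + aeval y⁻¹ c₁ * (x / y) + aeval y⁻¹ c₂ * (x / y) ^ 2 = 0) :
    c₀ = 0 ∧ c₁ = 0 ∧ c₂ = 0 := by
  set N : ℕ := max c₀.natDegree (max c₁.natDegree c₂.natDegree) with hN
  have key : ∀ c : O[X], c.natDegree ≤ N →
      aeval y⁻¹ c = aeval y (reflect N c) * (y⁻¹) ^ N := by
    intro c hc
    have : Invertible (y⁻¹) := invertibleOfNonzero (inv_ne_zero hy)
    have := eval₂_reflect_mul_pow (algebraMap O K) (y⁻¹) N c hc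
    rw [invOf_eq_inv, inv_inv] at this
    rw [aeval_def, aeval_def, this]
  rw [key c₀ (le_max_left _ _), key c₁ (le_trans (le_max_left _ _) (le_max_right _ _)),
    key c₂ (le_trans (le_max_right _ _) (le_max_right _ _))] at h
  have hyN : (y⁻¹) ^ N ≠ 0 := pow_ne_zero _ (inv_ne_zero hy)
  have h1 : (aeval y (reflect N c₀) + aeval y (reflect N c₁) * (x / y) +
      aeval y (reflect N c₂) * (x / y) ^ 2) * (y⁻¹) ^ N = 0 := by
    linear_combination h
  have h2 := (mul_eq_zero.1 h1).resolve_right hyN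
  have h3 : aeval y (X ^ 2 * reflect N c₀) + aeval y (X * reflect N c₁) * x +
      aeval y (reflect N c₂) * x ^ 2 = 0 := by
    simp only [map_mul, map_pow, aeval_X]
    have h4 := congrArg (fun t => t * y ^ 2) h2
    simp only [zero_mul] at h4
    rw [← h4]
    field_simp
  obtain ⟨e0, e1, e2⟩ := lin3 hx hw h3
  refine ⟨?_, ?_, ?_⟩
  · exact reflect_eq_zero_iff.1 ((mul_eq_zero.1 e0).resolve_left (pow_ne_zero _ X_ne_zero))
  · exact reflect_eq_zero_iff.1 ((mul_eq_zero.1 e1).resolve_left X_ne_zero)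
  · exact reflect_eq_zero_iff.1 e2

end

/-- The relations between `x / y` and `1 / y` are generated by the Weierstrass equation. -/
theorem t_KER : Pool.Agent.Y953.ECT.S_KER := by
  intro O K _ _ _ _ hinj a₁ a₂ a₃ a₄ a₆ x y hx hy hw p hp
  set g : O[X][X] := X ^ 3 + C (C a₂ * X) * X ^ 2 + C (C a₄ * X ^ 2 - C a₁ * X) * X +
    C (C a₆ * X ^ 3 - C a₃ * X ^ 2 - X) with hg
  let φ : MvPolynomial (Fin 2) O →+* O[X][X] :=
    (MvPolynomial.aeval ![X, C X] : MvPolynomial (Fin 2) O →ₐ[O] O[X][X]).toRingHom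
  let ψ : O[X][X] →+* MvPolynomial (Fin 2) O :=
    eval₂RingHom (aeval (MvPolynomial.X 1) : O[X] →ₐ[O] MvPolynomial (Fin 2) O).toRingHom
      (MvPolynomial.X 0)
  have hψφ : ∀ q, ψ (φ q) = q := by
    have : ψ.comp φ = RingHom.id _ := by
      apply MvPolynomial.ringHom_ext
      · intro r
        simp [ψ, φ]
      · intro i
        fin_cases i <;> simp [ψ, φ]
    intro q
    exact congrArg (fun f => f q) this
  have hev : ∀ q, ev (y⁻¹) (x / y) (φ q) = MvPolynomial.aeval ![x / y, 1 / y] q := by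
    have : (ev (y⁻¹) (x / y)).comp φ =
        (MvPolynomial.aeval ![x / y, 1 / y] : MvPolynomial (Fin 2) O →ₐ[O] K).toRingHom := by
      apply MvPolynomial.ringHom_ext
      · intro r
        simp [ev, φ]
      · intro i
        fin_cases i <;> simp [ev, φ]
    intro q
    exact congrArg (fun f => f q) this
  have hψg : ψ g = -Pool.Agent.Y953.ECT.ff a₁ a₂ a₃ a₄ a₆ := by
    rw [hg, Pool.Agent.Y953.ECT.ff]
    simp only [ψ, map_sub, map_mul, map_pow, map_add, coe_eval₂RingHom, eval₂_X, eval₂_C,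
      AlgHom.toRingHom_eq_coe, RingHom.coe_coe, aeval_X, aeval_C, MvPolynomial.algebraMap_eq]
    ring
  have hgd : g.natDegree = 3 := by
    rw [hg]; compute_degree!
  have hgm : g.Monic := by
    rw [hg]; monicity!
  have hgz : ev (y⁻¹) (x / y) g = 0 := by
    rw [hg]
    simp only [map_sub, map_mul, map_pow, map_add, ev_C, ev_X, aeval_X, aeval_C]
    field_simp
    linear_combination -hw
  suffices h : g ∣ φ p by
    obtain ⟨q, hq⟩ := h
    have h1 := congrArg ψ hq
    rw [hψφ, map_mul, hψg] at h1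
    exact ⟨-ψ q, by rw [h1]; ring⟩
  rw [← modByMonic_eq_zero_iff_dvd hgm]
  have h3 : ev (y⁻¹) (x / y) (φ p %ₘ g) = 0 := by
    have := congrArg (ev (y⁻¹) (x / y)) (modByMonic_add_div (φ p) g)
    rw [map_add, map_mul, hgz, zero_mul, add_zero, hev, hp] at this
    exact this
  have h1 : (φ p %ₘ g).natDegree < 3 := by
    rw [← hgd]
    apply natDegree_modByMonic_lt _ hgm
    intro h
    rw [h] at hgd
    simp at hgd
  have h2 := as_sum_range_C_mul_X_pow' (φ p %ₘ g) h1
  rw [Finset.sum_range_succ, Finset.sum_range_succ, Finset.sum_range_one] at h2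
  generalize (φ p %ₘ g).coeff 0 = c₀ at h2
  generalize (φ p %ₘ g).coeff 1 = c₁ at h2
  generalize (φ p %ₘ g).coeff 2 = c₂ at h2
  rw [h2] at h3
  simp only [map_mul, map_pow, map_add, ev_C, ev_X] at h3
  obtain ⟨e0, e1, e2⟩ := lin3' hx hy hw (c₀ := c₀) (c₁ := c₁) (c₂ := c₂)
    (by linear_combination h3)
  rw [h2, e0, e1, e2]
  simp

end Pool.Agent.Y79.ECT
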